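import Pool.Agent.AT8.Stmts1
import Pool.Agent.Helper10_K9.SM2

/-!
# Squad AT8, row SMI: the second main theorem for idempotents
-/

open scoped BigOperators

set_option linter.unusedSectionVars false

noncomputable section

namespace Pool.Agent.PP.T8.H3

open Pool.Agent.Helper51_AWC Pool.Agent.Helper79_WRA Pool.Agent.PP Pool.Agent.PP.KF
open Pool.Agent.PP.K9 Pool.Agent.PP.KF.H71 Pool.Agent.PP.KF.H92 Pool.Agent.PP.K9.H10
open Pool.Agent.PP.T3 Pool.Agent.PP.T2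

attribute [local instance] Ideal.Quotient.field

section grp

variable {G : Type} [Group G]

/-- the `ℓ`-part and the `ℓ`-regular part of an element -/
theorem parts' [Finite G] {ℓ : ℕ} (hℓ : ℓ.Prime) (g : G) : ∃ y s : G, ∃ m : ℕ, 0 < m ∧
      ¬ ℓ ∣ m ∧ s ^ m = 1 ∧ y * s = g ∧ Commute y s := by
  have hpos : orderOf g ≠ 0 := (orderOf_pos g).ne'
  obtain ⟨a, m, hm, ham⟩ := Nat.exists_eq_pow_mul_and_not_dvd hpos ℓ hℓ.ne_one
  have hcop : Nat.Coprime (ℓ ^ a) m :=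
    Nat.Coprime.pow_left a ((Nat.Prime.coprime_iff_not_dvd hℓ).2 hm)
  obtain ⟨N, hN1, hN2⟩ := Nat.chineseRemainder hcop 1 0
  obtain ⟨N', hN1', hN2'⟩ := Nat.chineseRemainder hcop 0 1
  have hlN' : ℓ ^ a ∣ N' := (Nat.modEq_zero_iff_dvd).1 hN1'
  have hs : (g ^ N') ^ m = 1 := by
    rw [← pow_mul]
    apply orderOf_dvd_iff_pow_eq_one.1
    rw [ham]
    exact Nat.mul_dvd_mul hlN' dvd_rfl
  have hys : g ^ N * g ^ N' = g := by
    rw [← pow_add]
    have h1 : N + N' ≡ 1 [MOD orderOf g] := by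
      rw [ham]
      refine (Nat.modEq_and_modEq_iff_modEq_mul hcop).1 ⟨?_, ?_⟩
      · exact hN1.add hN1'
      · exact hN2.add hN2'
    have h2 := pow_eq_pow_iff_modEq.2 h1
    rw [pow_one] at h2
    exact h2
  have hm0 : 0 < m := by
    rcases Nat.eq_zero_or_pos m with h | h
    · exact absurd (h ▸ dvd_zero ℓ) hm
    · exact h
  exact ⟨g ^ N, g ^ N', m, hm0, hm, hs, hys, (Commute.refl g).pow_pow N N'⟩

theorem conj_pow_inv {F : Type} (z : G) (a : G → F) (h : ∀ x, a (z * x * z⁻¹) = a x) (k : ℕ) :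
    ∀ x, a (z ^ k * x * (z ^ k)⁻¹) = a x := by
  induction k with
  | zero => intro x; simp
  | succ k ih =>
    intro x
    have e1 : z ^ (k + 1) * x * (z ^ (k + 1))⁻¹ = z ^ k * (z * x * z⁻¹) * (z ^ k)⁻¹ := by
      rw [pow_succ]
      group
    rw [e1, ih, h]

theorem mem_cu_conj (z x : G) (k : ℕ) : z ^ k * x * (z ^ k)⁻¹ ∈ Cu z ↔ x ∈ Cu z := by
  have key : ∀ w y : G, Commute w z → y ∈ Cu z → w * y * w⁻¹ ∈ Cu z := by
    intro w y hw hy
    rw [Subgroup.mem_centralizer_singleton_iff] at hy ⊢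
    have h1 : y * z = z * y := hy
    have h2 : w * z = z * w := hw
    have h3 : w⁻¹ * z = z * w⁻¹ := hw.inv_left.eq
    calc w * y * w⁻¹ * z = w * y * (w⁻¹ * z) := by group
      _ = w * (y * z) * w⁻¹ := by rw [h3]; group
      _ = (w * z) * y * w⁻¹ := by rw [h1]; group
      _ = z * (w * y * w⁻¹) := by rw [h2]; group
  have hc : Commute (z ^ k) z := (Commute.refl z).pow_left k
  constructor
  · intro h
    have h1 := key (z ^ k)⁻¹ _ hc.inv_left h
    have e1 : (z ^ k)⁻¹ * (z ^ k * x * (z ^ k)⁻¹) * ((z ^ k)⁻¹)⁻¹ = x := by group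
    rwa [e1] at h1
  · exact key (z ^ k) x hc

end grp

section ring

variable {F : Type} [Field F] {G : Type} [Group G] [Fintype G] [DecidableEq G]

theorem Km_pow2 (a b : G) (k : ℕ) :
    Km (dl F a) (dl F b) ^ k = Km (dl F (a ^ k)) (dl F (b ^ k)) := by
  induction k with
  | zero => rw [pow_zero, pow_zero, pow_zero, Km_one]
  | succ k ih => rw [pow_succ, ih, Km_mul, dl_dl, dl_dl, pow_succ, pow_succ']

theorem Km_sum2 (q : ℕ) (a : G → F) (b : ℕ → G → F) :
    ∑ i ∈ Finset.range q, Km a (b i) = Km a (∑ i ∈ Finset.range q, b i) := by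
  ext x y
  rw [Matrix.sum_apply]
  simp only [Km_apply, Finset.sum_apply, Finset.mul_sum]
  rw [Finset.sum_comm]

theorem Km_sub2 (a b c : G → F) : Km a b - Km a c = Km a (b - c) := by
  ext x y
  rw [Matrix.sub_apply]
  simp only [Km_apply, Pi.sub_apply, mul_sub, Finset.sum_sub_distrib]

theorem mul_one_dl (a : G → F) : mulF a (dl F (1 : G)) = a := by
  rw [← H20.mulF_comm_of_cl dl_cl, dl_one_mulF]

theorem cm_dl (z : G) (a : G → F) (h : ∀ x, a (z * x * z⁻¹) = a x) :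
    mulF (dl F z) a = mulF a (dl F z) := by
  funext x
  rw [H75.mulF_dl_left, H75.mulF_dl_right]
  have e1 := h (z⁻¹ * x)
  have e2 : z * (z⁻¹ * x) * z⁻¹ = x * z⁻¹ := by group
  rw [e2] at e1
  exact e1.symm

theorem tr_Km (h z : G) (a : G → F) :
    (Km (dl F h⁻¹) (mulF a (dl F z))).trace = ∑ x, a (x⁻¹ * h * x * z⁻¹) := by
  rw [Matrix.trace]
  refine Finset.sum_congr rfl fun x _ => ?_
  rw [Matrix.diag_apply, Km_apply, Finset.sum_eq_single h⁻¹]
  · rw [dl, if_pos rfl, one_mul, H75.mulF_dl_right, inv_inv]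
  · intro g _ hg
    rw [dl, if_neg hg, zero_mul]
  · intro hh
    exact absurd (Finset.mem_univ _) hh

end ring

/-- the values of the idempotents at the conjugates of all elements have the same sums -/
theorem main (tr2 : Tr2Stmt) (cyc : T3.CycStmt) (ℓ : ℕ) [Fact ℓ.Prime]
    (M : Ideal (integralClosure ℤ ℂ)) [M.IsMaximal] (hM : (ℓ : integralClosure ℤ ℂ) ∈ M)
    (G : Type) [Group G] [Fintype G] (z : G) (hz : El ℓ z) (i j : G → ℂ)
    (hi : ∀ g, i g ∈ RM M) (hii : mulF i i = i) (hiz : ∀ x, i (z * x * z⁻¹) = i x)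
    (hj : ∀ g, j g ∈ RM M) (hjj : mulF j j = j) (hjz : ∀ g, g ∉ Cu z → j g = 0)
    (hij : ∀ g ∈ Cu z, rr M (j g) = rr M (i g)) (h : G) :
    ∑ x, i (x⁻¹ * h * x * z⁻¹) = ∑ x, j (x⁻¹ * h * x * z⁻¹) := by
  classical
  have hℓ : ℓ.Prime := Fact.out
  obtain ⟨y, s, m, hm0, hml, hsm, hys, hcomm⟩ := parts' hℓ h
  obtain ⟨n, hzn⟩ := hz
  have hjz' : ∀ x, j (z * x * z⁻¹) = j x := by
    intro x
    have e1 := mem_cu_conj z x 1
    rw [pow_one] at e1
    by_cases hx : x ∈ Cu z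
    · rw [Subgroup.mem_centralizer_singleton_iff] at hx
      have e2 : z * x * z⁻¹ = x := by
        rw [← hx]
        group
      rw [e2]
    · rw [hjz x hx, hjz _ fun h' => hx (e1.1 h')]
  set σ : Equiv.Perm G := MulAut.toPerm G (MulAut.conj z) with hσdef
  have hσ : ∀ (k : ℕ) (x : G), (σ ^ k) x = z ^ k * x * (z ^ k)⁻¹ := by
    intro k x
    rw [hσdef, ← map_pow, ← map_pow]
    rfl
  obtain ⟨c, hc01, hcl, hcs⟩ := cyc ℓ G σ n (by
    ext x
    rw [hσ, hzn]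
    simp)
  have hcl' : ∀ x, c (z ^ ℓ * x * (z ^ ℓ)⁻¹) = c x := by
    intro x
    rw [← hσ]
    exact hcl x
  set i' : G → ℂ := fun g => if g ∈ Cu z then 0 else (c g : ℂ) * i g with hi'
  set P₁ : Matrix G G ℂ := Km (dl ℂ (1 : G)) i with hP₁
  set P₂ : Matrix G G ℂ := Km (dl ℂ (1 : G)) j with hP₂
  set U : Matrix G G ℂ := Km (dl ℂ y⁻¹) (dl ℂ z) with hU
  set W : Matrix G G ℂ := Km (dl ℂ y) (dl ℂ z⁻¹) with hW
  set V : Matrix G G ℂ := Km (dl ℂ s⁻¹) (dl ℂ (1 : G)) with hV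
  set X : Matrix G G ℂ := Km (dl ℂ (1 : G)) i' with hX
  have hi'R : ∀ g, i' g ∈ RM M := by
    intro g
    simp only [hi']
    split_ifs
    · exact (RM M).zero_mem
    · rcases hc01 g with h' | h'
      · rw [h', Nat.cast_zero, zero_mul]
        exact (RM M).zero_mem
      · rw [h', Nat.cast_one, one_mul]
        exact hi g
  have hi'r : ∀ g, rr M (i' g) = if g ∈ Cu z then 0 else (c g : FF M) * rr M (i g) := by
    intro g
    simp only [hi']
    split_ifs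
    · exact rr_zero
    · rcases hc01 g with h' | h'
      · rw [h', Nat.cast_zero, zero_mul, Nat.cast_zero, zero_mul]
        exact rr_zero
      · rw [h', Nat.cast_one, one_mul, Nat.cast_one, one_mul]
  have hdR : ∀ w g : G, dl ℂ w g ∈ RM M := fun w g => (dl_RM w g).1
  have hdlr : ∀ w : G, (fun g => rr M (dl ℂ w g)) = dl (FF M) w := fun w =>
    funext fun g => (dl_RM w g).2
  -- the matrices
  have e1 : P₁ * P₁ = P₁ := by rw [hP₁, Km_mul, dl_dl, hii, one_mul]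
  have e2 : P₂ * P₂ = P₂ := by rw [hP₂, Km_mul, dl_dl, hjj, one_mul]
  have e3 : U * W = 1 := by
    rw [hU, hW, Km_mul, dl_dl, dl_dl, inv_mul_cancel, inv_mul_cancel, Km_one]
  have e4 : V ^ m = 1 := by
    rw [hV, Km_pow2, inv_pow, hsm, inv_one, one_pow, Km_one]
  have e5 : U * P₁ = P₁ * U := by
    rw [hU, hP₁, Km_mul, Km_mul, dl_dl, dl_dl, one_mul, mul_one, cm_dl z i hiz]
  have e6 : U * P₂ = P₂ * U := by
    rw [hU, hP₂, Km_mul, Km_mul, dl_dl, dl_dl, one_mul, mul_one, cm_dl z j hjz']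
  have e7 : V * P₁ = P₁ * V := by
    rw [hV, hP₁, Km_mul, Km_mul, dl_dl, dl_dl, one_mul, mul_one, mul_one_dl, dl_one_mulF]
  have e8 : V * P₂ = P₂ * V := by
    rw [hV, hP₂, Km_mul, Km_mul, dl_dl, dl_dl, one_mul, mul_one, mul_one_dl, dl_one_mulF]
  have e9 : U * V = V * U := by
    rw [hU, hV, Km_mul, Km_mul, dl_dl, dl_dl, dl_dl, dl_dl, one_mul, mul_one, ← mul_inv_rev,
      ← mul_inv_rev, hcomm.eq]
  have hi'z : ∀ x, i' (z ^ ℓ * x * (z ^ ℓ)⁻¹) = i' x := by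
    intro x
    simp only [hi', mem_cu_conj z x ℓ, hcl' x, conj_pow_inv z i hiz ℓ x]
  have e10 : X * U ^ ℓ = U ^ ℓ * X := by
    rw [hX, hU, Km_pow2, Km_mul, Km_mul, dl_dl, dl_dl, one_mul, mul_one,
      cm_dl (z ^ ℓ) i' hi'z]
  have hUm : U.map (rr M) = Km (dl (FF M) y⁻¹) (dl (FF M) z) := by
    rw [hU, Km_map (hdR _) (hdR _), hdlr, hdlr]
  have hWm : W.map (rr M) = Km (dl (FF M) y) (dl (FF M) z⁻¹) := by
    rw [hW, Km_map (hdR _) (hdR _), hdlr, hdlr]
  have hXm : X.map (rr M) = Km (dl (FF M) (1 : G)) (fun g => rr M (i' g)) := by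
    rw [hX, Km_map (hdR _) hi'R, hdlr]
  have hP₁m : P₁.map (rr M) = Km (dl (FF M) (1 : G)) (fun g => rr M (i g)) := by
    rw [hP₁, Km_map (hdR _) hi, hdlr]
  have hP₂m : P₂.map (rr M) = Km (dl (FF M) (1 : G)) (fun g => rr M (j g)) := by
    rw [hP₂, Km_map (hdR _) hj, hdlr]
  have hterm : ∀ k : ℕ, U.map (rr M) ^ k * X.map (rr M) * W.map (rr M) ^ k =
      Km (dl (FF M) (1 : G)) (fun g => rr M (i' (z ^ k * g * (z ^ k)⁻¹))) := by
    intro k
    rw [hUm, hWm, hXm, Km_pow2, Km_pow2, Km_mul, Km_mul, dl_dl, dl_dl, mul_one, inv_pow,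
      inv_mul_cancel]
    congr 1
    funext x
    rw [H75.mulF_dl_left, H75.mulF_dl_right, inv_pow, inv_inv]
  have e11 : ∑ k ∈ Finset.range ℓ, U.map (rr M) ^ k * X.map (rr M) * W.map (rr M) ^ k =
      P₁.map (rr M) - P₂.map (rr M) := by
    rw [Finset.sum_congr rfl fun k _ => hterm k, Km_sum2, hP₁m, hP₂m, Km_sub2]
    congr 1
    funext g
    rw [Finset.sum_apply, Pi.sub_apply]
    simp only [hi'r, mem_cu_conj z g, conj_pow_inv z i hiz]
    by_cases hg : g ∈ Cu z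
    · simp only [if_pos hg, Finset.sum_const_zero]
      rw [hij g hg, sub_self]
    · simp only [if_neg hg]
      rw [hjz g hg, rr_zero, sub_zero, ← Finset.sum_mul, ← Nat.cast_sum]
      have q1 : σ g ≠ g := by
        intro h'
        apply hg
        rw [Subgroup.mem_centralizer_singleton_iff]
        have q2 := hσ 1 g
        rw [pow_one, pow_one, h'] at q2
        have q3 : g * z = z * g := by
          conv_lhs => rw [q2]
          group
        exact q3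
      have q2 := hcs g q1
      have q3 : ∑ k ∈ Finset.range ℓ, c (z ^ k * g * (z ^ k)⁻¹) = 1 := by
        rw [← q2]
        exact Finset.sum_congr rfl fun k _ => by rw [hσ]
      rw [q3, Nat.cast_one, one_mul]
  have key := tr2 ℓ M hM G P₁ P₂ U W V X m hm0 hml (Km_RM (hdR _) hi) (Km_RM (hdR _) hj)
    (Km_RM (hdR _) (hdR _)) (Km_RM (hdR _) (hdR _)) (Km_RM (hdR _) (hdR _))
    (Km_RM (hdR _) hi'R) e1 e2 e3 e4 e5 e6 e7 e8 e9 e10 e11
  have hUV : ∀ a : G → ℂ, U * V * Km (dl ℂ (1 : G)) a = Km (dl ℂ h⁻¹) (mulF a (dl ℂ z)) := by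
    intro a
    rw [hU, hV, Km_mul, Km_mul, dl_dl, dl_dl, dl_dl, mul_one, one_mul, ← mul_inv_rev,
      ← hcomm.eq, hys]
  rw [hP₁, hP₂, hUV, hUV, tr_Km, tr_Km] at key
  exact key

theorem fv_sum {G : Type} [Group G] [Fintype G] (i : G → ℂ) (z : G) (th : G → ℂ)
    (hth : ∀ x y, th (y * x * y⁻¹) = th x) :
    ∑ h, (∑ x, i (x⁻¹ * h * x * z⁻¹)) * th h = Fintype.card G * fv i z th := by
  simp only [Finset.sum_mul]
  rw [Finset.sum_comm]
  have e1 : ∀ x : G, ∑ h, i (x⁻¹ * h * x * z⁻¹) * th h = fv i z th := by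
    intro x
    unfold fv
    rw [finsum_eq_sum_of_fintype, ← Equiv.sum_comp (MulAut.conj x).toEquiv,
      ← Equiv.sum_comp (Equiv.mulRight z)]
    refine Finset.sum_congr rfl fun g _ => ?_
    change i (x⁻¹ * (x * (g * z) * x⁻¹) * x * z⁻¹) * th (x * (g * z) * x⁻¹) = i g * th (z * g)
    have q1 : x⁻¹ * (x * (g * z) * x⁻¹) * x * z⁻¹ = g := by group
    have q2 : th (g * z) = th (z * g) := by
      have q3 := hth (z * g) z⁻¹
      rw [inv_inv, inv_mul_cancel_left] at q3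
      exact q3
    rw [q1, hth, q2]
  rw [Finset.sum_congr rfl fun x _ => e1 x, Finset.sum_const, Finset.card_univ, nsmul_eq_mul]

theorem smi (tr2 : Tr2Stmt) (cyc : T3.CycStmt) : SmiStmt := by
  intro ℓ _ M _ hM G _ _ z hz i j hi hii hiz hj hjj hjz hij th hth
  have := Fintype.ofFinite G
  have h1 := fv_sum i z th hth
  have h2 := fv_sum j z th hth
  rw [Finset.sum_congr rfl fun h _ => by
    rw [main tr2 cyc ℓ M hM G z hz i j hi hii hiz hj hjj hjz hij h], h2] at h1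
  have h3 : (Fintype.card G : ℂ) ≠ 0 := Nat.cast_ne_zero.2 Fintype.card_ne_zero
  exact (mul_left_cancel₀ h3 h1).symm

end Pool.Agent.PP.T8.H3
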